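import Mathlib
import Pool.Agent.Helper92.PO.Stmts

namespace Pool.Agent.Helper92.PO

theorem lbc_labs {n : ℕ} {v : Lab} (h : v ∈ labs n) :
    v = (0, 0) ∨ v = (1, 0) ∨ ((v.1 = 2 ∨ v.1 = 3 ∨ v.1 = 4 ∨ v.1 = 5) ∧ 1 ≤ v.2) := by
  unfold labs at h
  rw [List.mem_cons, List.mem_cons, List.mem_flatMap] at h
  rcases h with h | h | ⟨d, _, h⟩
  · exact Or.inl h
  · exact Or.inr (Or.inl h)
  · right; right
    simp only [List.mem_cons, List.not_mem_nil, or_false] at h
    rcases h with h | h | h | h <;> subst h <;> simp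

theorem lbc_par {k : ℕ} {v u : Lab} (hk : 2 ≤ k) (hv : v.1 = k) (h : par k v u = true) :
    u.1 ≠ 0 ∧ u.2 + 1 = v.2 := by
  unfold par at h
  rw [if_neg (by omega), if_pos hv] at h
  unfold ispar at h
  simpa using h

theorem lbc_step {n : ℕ} {P : Finset Cell} {c : Cell → Lab} (H : Val n P c) {a : Cell}
    (ha : a ∈ P) (h0 : a ≠ ((0, 0) : Cell)) :
    ∃ b ∈ P, Adj a b ∧ (c b).2 + 1 = (c a).2 := by
  obtain ⟨H1, H2, H3, H4, H5⟩ := H
  have hk := lbc_labs (H2 a)
  have hne : (c a).1 ≠ 0 := (H1 a).1 ha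
  have hne1 : (c a).1 ≠ 1 := fun h => h0 ((H3 a).1 h)
  rcases hk with hk | hk | ⟨hk, _⟩
  · exact absurd (by rw [hk]) hne
  · exact absurd (by rw [hk]) hne1
  obtain ⟨x, y⟩ := a
  rcases hk with hk | hk | hk | hk
  · have h := H4 (x - 1, y)
    simp only [sub_add_cancel] at h
    unfold Hc at h
    simp only [Bool.and_eq_true] at h
    obtain ⟨hu, hd⟩ := lbc_par (le_refl 2) hk h.2.1
    refine ⟨(x - 1, y), (H1 _).2 hu, ?_, hd⟩
    unfold Adj; simp
  · have h := H5 (x, y - 1)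
    simp only [sub_add_cancel] at h
    unfold Vc at h
    simp only [Bool.and_eq_true] at h
    obtain ⟨hu, hd⟩ := lbc_par (by norm_num) hk h.2.1
    refine ⟨(x, y - 1), (H1 _).2 hu, ?_, hd⟩
    unfold Adj; simp
  · have h := H4 (x, y)
    unfold Hc at h
    simp only [Bool.and_eq_true] at h
    obtain ⟨hu, hd⟩ := lbc_par (by norm_num) hk h.2.2
    refine ⟨(x + 1, y), (H1 _).2 hu, ?_, hd⟩
    unfold Adj; simp
  · have h := H5 (x, y)
    unfold Vc at h
    simp only [Bool.and_eq_true] at h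
    obtain ⟨hu, hd⟩ := lbc_par (by norm_num) hk h.2.2
    refine ⟨(x, y + 1), (H1 _).2 hu, ?_, hd⟩
    unfold Adj; simp

theorem lbc_adj_symm {a b : Cell} (h : Adj a b) : Adj b a := by
  unfold Adj at *
  rw [abs_sub_comm, abs_sub_comm b.2]; exact h

theorem lbc_root {n : ℕ} {P : Finset Cell} {c : Cell → Lab} (H : Val n P c) :
    ∀ d : ℕ, ∀ a ∈ P, (c a).2 = d →
      Relation.ReflTransGen (fun x y => y ∈ P ∧ Adj x y) a ((0, 0) : Cell) ∧
      Relation.ReflTransGen (fun x y => y ∈ P ∧ Adj x y) ((0, 0) : Cell) a := by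
  intro d
  induction d with
  | zero =>
    intro a ha hd
    by_cases h0 : a = ((0, 0) : Cell)
    · subst h0; exact ⟨Relation.ReflTransGen.refl, Relation.ReflTransGen.refl⟩
    · obtain ⟨b, _, _, hb⟩ := lbc_step H ha h0
      omega
  | succ d ih =>
    intro a ha hd
    by_cases h0 : a = ((0, 0) : Cell)
    · subst h0; exact ⟨Relation.ReflTransGen.refl, Relation.ReflTransGen.refl⟩
    · obtain ⟨b, hbP, hab, hb⟩ := lbc_step H ha h0
      obtain ⟨h1, h2⟩ := ih b hbP (by omega)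
      exact ⟨Relation.ReflTransGen.head ⟨hbP, hab⟩ h1,
        Relation.ReflTransGen.tail h2 ⟨ha, lbc_adj_symm hab⟩⟩

theorem st_LBC : ST_LBC := by
  intro n P c H a ha b hb
  exact (lbc_root H _ a ha rfl).1.trans (lbc_root H _ b hb rfl).2

end Pool.Agent.Helper92.PO
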